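import Pool.Agent.H932.L.Fin2

/-!
# Indecomposable rank two bundles on `P^4`: every line meets a line of large gap

Let `E` be a rank two bundle which does not split, and `Λ` a linear subspace of dimension four (for
example `Λ = P^4`).  Then every line in `Λ` meets a line in `Λ` on which `E` is `O(p) ⊕ O(q)` with
`p - q ≥ 4`, and even `p - q ≥ 5` if the first Chern class is odd.

The proof.  As the gaps have the parity of `c₁`, the case remains where the lines which meet the given
line `A` have the gaps `1` and `3` only.  If `A` has the gap `1`, the larger summand of `E|_A`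
prescribes a direction in the fibres over `A`, and by the level theorem one gets a complete curve of
lines of gap `3` which meet `A`.  The comparison of frames along this curve is a nowhere vanishing
homogeneous function of degree `d`, where `-d` is the degree of the determinant of the spaces of
sections of a twist of `E` on the lines, in the first point.  Here `d ≤ 0` because of the jumping
lines through a point `x`, and `d = 0` is excluded by a comparison of the Plücker coordinates of order
one and two near a line of gap `3` through `x`, whose direction is not the one of the lines of gap `1`.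
The lines of gap `3` are limits of lines of gap `1`, and the set of the lines which meet a line of gap
at least `5` is closed.
-/

open H960VB H960VB.Bundle2

namespace Pool.Agent.Results.MP_745d3a_ag.EveryLineMeets

theorem result {n : ℕ} (E : Bundle2 n) (hE : ¬ E.Splits)
    (Λ : Submodule ℂ (Fin (n + 1) → ℂ)) (hΛ : Module.finrank ℂ Λ = 5)
    (A B : Fin (n + 1) → ℂ) (hA : A ∈ Λ) (hB : B ∈ Λ) (hAB : LinearIndependent ℂ ![A, B]) :
    ∃ P ∈ Submodule.span ℂ {A, B}, ∃ Q ∈ Λ, LinearIndependent ℂ ![P, Q] ∧
      ∃ p q : ℤ, E.SplitsOn P Q p q ∧ 4 ≤ p - q ∧ (Odd (p + q) → 5 ≤ p - q) := by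
  by_contra hcon
  refine H932L.mild4 E hE Λ hΛ hA hB hAB ?_
  intro P hP Q hQ hPQ p q hpq
  by_contra hlt
  push_cast at hlt
  refine hcon ⟨P, hP, Q, hQ, hPQ, p, q, hpq, by omega, ?_⟩
  rintro ⟨k, hk⟩
  omega

end Pool.Agent.Results.MP_745d3a_ag.EveryLineMeets
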